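import Mathlib
import Pool.Graph.R_pool_sql_team_seeded_63374d34.N20.Sub5

/-!
# Statements for the bound of the number of characters of a block

Library names used: `IsBlock`, `IsDefectGroup`, `IsIrr`, `omega`, `uu`, `red`, `blockCoeff`
(`H254R3.IN`), `CC`, `Induces`, `lB`, `cut`, `ch`, `RR`, `JJ` (`N20`).
-/

set_option autoImplicit false

open scoped BigOperators Classical
open Pool.Agent.Helper884 Pool.Agent.H254R3.IN Pool.Agent.N20

noncomputable section

namespace Pool.Agent.Helper97.KB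

/-- the number of characters of height zero -/
def k0 {G : Type} [Group G] (O : ValuationSubring ℂ) (B : Set (G → ℂ)) (D : Subgroup G) : ℕ :=
  Nat.card {χ : G → ℂ // χ ∈ B ∧ red O (uu D χ) ≠ 0}

/-- the number of characters of positive height -/
def k1 {G : Type} [Group G] (O : ValuationSubring ℂ) (B : Set (G → ℂ)) (D : Subgroup G) : ℕ :=
  Nat.card {χ : G → ℂ // χ ∈ B ∧ red O (uu D χ) = 0}

/-- A. The characters of height zero and a subsection `(u, b)` with `u ≠ 1`. Proof: copy the proof of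
`sub_count` (N20/Sub5.lean) up to the definition of `f` (there `D = D'`, `S = B` restricted to height
zero; see `height_zero_bound` for the nonvanishing modulo the maximal ideal) and put
`P q q' = ∑ θ η, f q θ * M θ η * f q' η`. Then `P` is symmetric, `P² = 2 (p - 1) |D'| P`
(`int_frame`), `trace P = 2 (p - 1) |D'| l(b)`, and `P q q' = (∑ f q θ u θ) (∑ s η f q' η)` in the
residue field. `H` = the `q` in the set `{(χ, i, j) | χ of height zero}` with
`∑ f q θ u θ ≠ 0`; for every `χ` of height zero there are at least `2 (p - 1)` pairs `(i, j)` (proof of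
`pair_count` for the function `a i = ∑_(jj θ = i) u θ n χ θ` with values in the residue field,
`∑ i, a i ≠ 0`: on some coset of the subgroup of order `p` the sum is not zero, so `a` is not constant
on it). Apply `Pool.Agent.Helper98.KB.sqrt_bound` with `q = 2 (p - 1) |D'|`. -/
def S_A : Prop := ∀ (G : Type) [Group G] [Fintype G] (p : ℕ) [Fact p.Prime]
  (O : ValuationSubring ℂ), (p : ℂ) ∈ O.nonunits → ∀ B : Set (G → ℂ), IsBlock O B →
  ∀ D : Subgroup G, IsDefectGroup p O B D → ∀ (u : G) (k : ℕ), orderOf u = p ^ (k + 1) →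
  ∀ b : Set (CC u → ℂ), IsBlock O b → ∀ D' : Subgroup (CC u), IsDefectGroup p O b D' →
  Induces O B (CC u) b → p * k0 O B D ^ 2 ≤ 7 * Nat.card D' ^ 2 * max p (lB p b)

/-- Cyc. Divisibility of the coefficients of a cyclotomic integer. `ch p k i = ζ ^ i`, `ζ` a primitive
root of unity of order `p ^ (k + 1)`; `RR p k i j` : `i` and `j` are congruent modulo the subgroup of
order `p`. Proof. Write `i = i₀ + a p ^ k`, `i₀ < p ^ k`, `a < p`. As
`ζ ^ (i₀ + (p - 1) p ^ k) = - ∑_(a < p - 1) ζ ^ (i₀ + a p ^ k)`, the sum is `P(ζ)` for a polynomial `P`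
over `ℤ` of degree `< φ = p ^ k (p - 1)` with the coefficients `m i - m (i₀ + (p - 1) p ^ k)`. Put
`y = ζ - 1`, `P = ∑_(j < φ) e j (X - 1) ^ j` with integers `e j`. `y ∈ O.nonunits` (`y ^ (p ^ (k + 1))`
is in `p O` since `(y + 1) ^ (p ^ (k + 1)) = 1`) and `p ∈ y ^ φ O` (`p` is the product of the `φ`
numbers `1 - ζ ^ i`, `i` prime to `p`, or `Φ(1) = p`; each is in `y O`). By induction on `n ≤ φ`: if
`∑_(j < n) e j y ^ j ∈ y ^ n O` then `p` divides all `e j` (`e 0 ∈ y O ∩ ℤ`, so `p ∣ e 0`, so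
`e 0 ∈ y ^ n O`, subtract and divide by `y`). So `p` divides the `e j`, hence all coefficients of
`P`. -/
def S_Cyc : Prop := ∀ (p k : ℕ) [Fact p.Prime] [NeZero (p ^ (k + 1))] (O : ValuationSubring ℂ),
  (p : ℂ) ∈ O.nonunits → ∀ m : ZMod (p ^ (k + 1)) → ℤ, (∑ i, ch p k i * m i) / p ∈ O →
  ∀ i j, RR p k i j → (p : ℤ) ∣ m i - m j

/-- Cen. The contribution of the `p`-regular elements of the centraliser of `u` is at most
`1 / p ^ (k + 1)`. Proof. `IC.B (cut p θ) θ = |H|⁻¹ ∑_(s p-regular) |θ s|²`, `H = CC u`; the elements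
`u ^ t s` (`t < p ^ (k + 1)`, `s` `p`-regular) of `H` are distinct and `|θ (u ^ t s)| = |θ s|`
(`cu_val`), and `IC.B θ θ = 1`. -/
def S_Cen : Prop := ∀ (G : Type) [Group G] [Fintype G] (p : ℕ) [Fact p.Prime] (u : G) (k : ℕ),
  orderOf u = p ^ k → ∀ θ : CC u → ℂ, IsIrr θ → (p : ℝ) ^ k * (IC.B (cut p θ) θ).re ≤ 1

/-- B. Characters of positive height and a major subsection. Hypotheses of the theorem to be proved:
`S_Cyc`, `S_Cen`. Proof. With the notation of `sub_count` / `sub_bound`, `θ₀ ∈ b` with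
`red O (uu D' θ₀) ≠ 0` (`exists_uu_ne`): `int_frame` gives
`∑_χ ∑_(i, j) [RR i j] (m χ θ₀ i - m χ θ₀ j) ^ 2 = 2 (p - 1) |D| M θ₀ θ₀` and
`p ^ (k + 1) M θ₀ θ₀ ≤ |D|` by `S_Cen`. For `χ ∈ B` the sum `x = ∑_i ch i * m χ θ₀ i` is
`|D| JJ p u 1 θ₀ χ = uu D χ * TG p u χ θ₀ ≠ 0` (`card_JJ`, `red_TG`, `uu_ne`, `cc_ne`), so by
`pair_count` at least `2 (p - 1)` pairs have `m χ θ₀ i ≠ m χ θ₀ j`. If `red O (uu D χ) = 0` then
`uu D χ / p ∈ O` (`Pool.Agent.Helper98.KB.div_p_mem`, the degree is a natural number), so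
`x / p ∈ O` (`TG_mem`) and the differences are divisible by `p` (`S_Cyc`), so the squares are at
least `p ^ 2`. -/
def S_B : Prop := ∀ (G : Type) [Group G] [Fintype G] (p : ℕ) [Fact p.Prime]
  (O : ValuationSubring ℂ), (p : ℂ) ∈ O.nonunits → ∀ B : Set (G → ℂ), IsBlock O B →
  ∀ D : Subgroup G, IsDefectGroup p O B D → ∀ (u : G) (k : ℕ), orderOf u = p ^ (k + 1) →
  ∀ b : Set (CC u → ℂ), IsBlock O b → ∀ D' : Subgroup (CC u), IsDefectGroup p O b D' →
  Nat.card D' = Nat.card D → Induces O B (CC u) b →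
  p ^ (k + 1) * (k0 O B D + p ^ 2 * k1 O B D) ≤ Nat.card D ^ 2

/-- Quo. Characters of `H ⧸ Z`, `Z` a central `p`-subgroup, and `p`-regular elements. Proof. A
`p`-regular element of `H ⧸ Z` has exactly one `p`-regular preimage (`x`, `x z` `p`-regular, `z` a
`p`-element commuting with `x`: `z = 1`); so the class of a `p`-regular `x` is mapped bijectively
onto the class of its image, and sums over `p`-regular elements agree. -/
def S_Quo : Prop := ∀ (H : Type) [Group H] [Fintype H] (p : ℕ) [Fact p.Prime] (Z : Subgroup H)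
  [Z.Normal], Z ≤ Subgroup.center H → IsPGroup p Z →
  (∀ ψ : H ⧸ Z → ℂ, IsIrr ψ → IsIrr (fun h : H => ψ (h : H ⧸ Z))) ∧
  (∀ (ψ : H ⧸ Z → ℂ) (x : H), ¬ p ∣ orderOf x →
    omega (fun h : H => ψ (h : H ⧸ Z)) x = omega ψ (x : H ⧸ Z)) ∧
  (∀ y : H ⧸ Z, ¬ p ∣ orderOf y → ∃ x : H, (x : H ⧸ Z) = y ∧ ¬ p ∣ orderOf x) ∧
  ∀ (_ : Fintype (H ⧸ Z)) (ψ ψ' : H ⧸ Z → ℂ), IC.B (cut p ψ) ψ' =
    Nat.card Z * IC.B (cut p fun h : H => ψ (h : H ⧸ Z)) fun h => ψ' (h : H ⧸ Z)

/-- Spa. The characters of `H ⧸ Z` in `b` span. Hypothesis of the theorem to be proved: `S_Quo`.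
Proof. For `θ ∈ b` let `f : H ⧸ Z → ℂ` be the class function which has the value `θ x` at the image of
`x`, `x` `p`-regular, and `0` at the other elements; `f = ∑_ψ c ψ * ψ` (`IC.expand`), so
`θ x = ∑_ψ c ψ * ψ x` for `p`-regular `x` of `H`. Apply the projection onto the block,
`g ↦ ∑_(φ ∈ XB b) IC.B (cut p g) φ * φ x`: it fixes the restrictions of the characters in `b`
(`cut_expand`) and kills those of the others (`blk_orth`; `B_cut_comm`). So the restrictions of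
the `ψ ∘ π ∈ b` span the space in the definition of `lB`. -/
def S_Spa : Prop := ∀ (H : Type) [Group H] [Fintype H] (p : ℕ) [Fact p.Prime]
  (O : ValuationSubring ℂ), (p : ℂ) ∈ O.nonunits → ∀ (Z : Subgroup H) [Z.Normal],
  Z ≤ Subgroup.center H → IsPGroup p Z → ∀ b : Set (H → ℂ), IsBlock O b →
  lB p b ≤ Nat.card {ψ : H ⧸ Z → ℂ // IsIrr ψ ∧ (fun h : H => ψ (h : H ⧸ Z)) ∈ b}

/-- Dom. The characters of `H ⧸ Z` in `b` are in one block of `H ⧸ Z`. Hypothesis of the theorem to be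
proved: `S_Quo`. Proof. `π : H → H ⧸ Z`. Let `ψ₁ ∘ π ∈ b`, `B'` the block of `ψ₁`, `D₁` a defect
group of `B'` (`Pool.Agent.Q17.DC.s_mmx`), `ψ₀ ∈ B'` with `red O (uu D₁ ψ₀) ≠ 0` (`exists_uu_ne`).
(1) `red O (SS p ψ₁ ψ₀) = sr p O ψ₁ ψ₀ = red O (uu D₁ ψ₀) * ccG O p D₁ ψ₁ ≠ 0` (`red_SS`, `sr_eq`,
`cc_ne`), so `IC.B (cut p ψ₁) ψ₀ ≠ 0` (`card_mul_B`, `uu_ne`), so
`IC.B (cut p (ψ₁ ∘ π)) (ψ₀ ∘ π) ≠ 0` by `S_Quo` and `ψ₀ ∘ π ∈ b` (`blk_orth`). (2) Let
`ψ ∘ π ∈ b`. `omega ψ y - omega ψ₁ y ∈ O.nonunits` for the `p`-regular `y` (`S_Quo`), so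
`red O (SS p ψ ψ₀) = red O (SS p ψ₁ ψ₀) ≠ 0`, so `IC.B (cut p ψ) ψ₀ ≠ 0`, so `ψ ∈ B'` (`blk_orth`;
`B_cut_comm`). (3) `uu D' (ψ₀ ∘ π) ∈ O` (`uu_mem`) and `uu D₁ ψ₀` is a unit of `O`; the quotient is
`|D'| / (|Z| |D₁|)`, and `|D'|`, `|Z| |D₁|` are powers of `p` (`defect_pgroup`), so
`|Z| |D₁| ≤ |D'|`. -/
def S_Dom : Prop := ∀ (H : Type) [Group H] [Fintype H] (p : ℕ) [Fact p.Prime]
  (O : ValuationSubring ℂ), (p : ℂ) ∈ O.nonunits → ∀ (Z : Subgroup H) [Z.Normal],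
  Z ≤ Subgroup.center H → IsPGroup p Z → ∀ b : Set (H → ℂ), IsBlock O b → ∀ D' : Subgroup H,
  IsDefectGroup p O b D' → ∀ ψ₁ : H ⧸ Z → ℂ, IsIrr ψ₁ → (fun h : H => ψ₁ (h : H ⧸ Z)) ∈ b →
  ∃ (B' : Set (H ⧸ Z → ℂ)) (D₁ : Subgroup (H ⧸ Z)), IsBlock O B' ∧ IsDefectGroup p O B' D₁ ∧
    Nat.card Z * Nat.card D₁ ≤ Nat.card D' ∧
    ∀ ψ : H ⧸ Z → ℂ, IsIrr ψ → (fun h : H => ψ (h : H ⧸ Z)) ∈ b → ψ ∈ B'

/-- Ext. Existence of major subsections. Proof. Let `L = CC z`. (1) As in `t_BRD`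
(`Pool.Graph.R_pool_sql_team_seeded_3997aac3.Q176.DC.BRD`) for the `p`-subgroup generated by `z`
(its centraliser is `L`): the restriction `r` of `blockCoeff B` to `L` is idempotent modulo
`O.nonunits`, and every `φ ∈ Irr(L)` with `Om r φ ∉ O.nonunits` satisfies
`omega χ w ≡ ∑_(y ∈ L, y ~ w) φ y / φ 1` for `χ ∈ B`, so its block `b` induces `B`. (2) By the
uniqueness of an idempotent with given `Om` modulo `O.nonunits` (step (2) in `t_BRX`,
`Pool.Graph.R_pool_sql_team_seeded_3997aac3.Q261.DC.BRX`) `r` is congruent to the sum of the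
`blockCoeff b` over the blocks `b` of `L` whose characters `φ` have `Om r φ ∉ O.nonunits`. Let `x` be as in
the definition of the defect group `D`; `x ∈ C(D) ≤ L`, so there is such a `b` with
`blockCoeff b x ∉ O.nonunits`, and `b` induces `B`. (3) Let `E` be a defect group of `b` (`s_mmx`).
`D` (in `L`) is a `p`-group which centralises `x`, so it is conjugate into `E` (`s_mmx`, first
property), so `|D| ≤ |E|`. `omega χ x ∉ O.nonunits` and it is congruent to the sum of the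
`omega φ y` over the classes of `L` in the class of `x` (`induced_sum'`), so there is `y ∈ L`
conjugate to `x` in `G` with `omega φ y ∉ O.nonunits`; by `s_mmx` (second property) a conjugate of
`E` centralises `y`, and `D` is a Sylow `p`-subgroup of `C_G(x)`, so `|E| ≤ |D|`. -/
def S_Ext : Prop := ∀ (G : Type) [Group G] [Fintype G] (p : ℕ) [Fact p.Prime]
  (O : ValuationSubring ℂ), (p : ℂ) ∈ O.nonunits → ∀ B : Set (G → ℂ), IsBlock O B →
  ∀ D : Subgroup G, IsDefectGroup p O B D → ∀ z ∈ D, (∀ d ∈ D, Commute z d) →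
  ∃ (b : Set (CC z → ℂ)) (D' : Subgroup (CC z)), IsBlock O b ∧ IsDefectGroup p O b D' ∧
    Nat.card D' = Nat.card D ∧ Induces O B (CC z) b

end Pool.Agent.Helper97.KB
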