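import Mathlib
import Pool.Agent.Helper98.KB.Mat

/-!
Matrix form of the bound for the characters of height zero.
-/

set_option autoImplicit false

open scoped BigOperators Classical

noncomputable section

namespace Pool.Agent.Helper97.KB

theorem mat_sub {Θ Q : Type} [Fintype Θ] [Fintype Q] {p e l N₀ : ℕ} (hp : p.Prime)
    (M : Θ → Θ → ℤ) (hsym : ∀ θ η, M θ η = M η θ)
    (hsq : ∀ θ η, ∑ φ, M θ φ * M φ η = p ^ e * M θ η)
    (htr : ∑ θ, M θ θ = p ^ e * (l : ℤ))
    {K : Type} [Field K] [CharP K p] (w s : Θ → K) (hred : ∀ θ η, ((M θ η : ℤ) : K) = w θ * s η)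
    (c : K) (hc : c ≠ 0) (hs : ∀ η, s η = c * w η) (f : Q → Θ → ℤ) (hN : 0 < N₀)
    (hfr : ∀ θ θ', ∑ q, (∑ η, M θ η * f q η) * (∑ η, M θ' η * f q η) =
      (N₀ : ℤ) * p ^ e * M θ θ')
    (H : Finset Q) (hH : ∀ q ∈ H, ∑ θ, (f q θ : K) * w θ ≠ 0) :
    p * H.card ^ 2 ≤ 7 * (N₀ * p ^ e) ^ 2 * max p l := by
  set P : Q → Q → ℤ := fun q q' => ∑ θ, f q θ * ∑ η, M θ η * f q' η with hP
  have hsymP : ∀ q q', P q q' = P q' q := by
    intro q q'
    simp only [hP, Finset.mul_sum]
    rw [Finset.sum_comm]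
    refine Finset.sum_congr rfl fun η _ => Finset.sum_congr rfl fun θ _ => ?_
    rw [hsym θ η]
    ring
  have hp0 : (0 : ℤ) < p ^ e := by
    have := hp.pos
    positivity
  refine Pool.Agent.Helper98.KB.sqrt_bound hp (q := N₀ * p ^ e) (l := l)
    (Nat.mul_pos hN (pow_pos hp.pos e)) P hsymP ?_ ?_ (K := K)
    (fun q => ∑ θ, (f q θ : K) * w θ) (fun q => ∑ θ, (f q θ : K) * s θ) ?_ H hH ?_
  · intro q q'
    have h1 : ∀ r, P q r * P r q' = ∑ θ, ∑ θ', f q θ * f q' θ' *
        ((∑ η, M θ η * f r η) * ∑ η, M θ' η * f r η) := by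
      intro r
      rw [hsymP r q']
      simp only [hP]
      rw [Finset.sum_mul_sum]
      refine Finset.sum_congr rfl fun θ _ => Finset.sum_congr rfl fun θ' _ => ?_
      ring
    rw [Finset.sum_congr rfl (fun r _ => h1 r), Finset.sum_comm]
    have h2 : ∀ θ, ∑ r, ∑ θ', f q θ * f q' θ' *
        ((∑ η, M θ η * f r η) * ∑ η, M θ' η * f r η) =
        ∑ θ', f q θ * f q' θ' * ((N₀ : ℤ) * p ^ e * M θ θ') := by
      intro θ
      rw [Finset.sum_comm]
      refine Finset.sum_congr rfl fun θ' _ => ?_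
      rw [← Finset.mul_sum, hfr]
    rw [Finset.sum_congr rfl (fun θ _ => h2 θ)]
    simp only [hP, Finset.mul_sum]
    refine Finset.sum_congr rfl fun θ _ => Finset.sum_congr rfl fun θ' _ => ?_
    push_cast
    ring
  · have h1 : (p ^ e : ℤ) * ∑ q, P q q = p ^ e * ((N₀ * p ^ e : ℕ) * l) := by
      rw [Finset.mul_sum]
      have h2 : ∀ q, (p ^ e : ℤ) * P q q =
          ∑ φ, (∑ η, M φ η * f q η) * (∑ η, M φ η * f q η) := by
        intro q
        have h0 : ∀ φ, (∑ η, M φ η * f q η) * (∑ η, M φ η * f q η) =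
            ∑ i, ∑ j, M φ i * f q i * (M φ j * f q j) := fun φ => Finset.sum_mul_sum _ _ _ _
        have h3 : ∑ φ, ∑ i, ∑ j, M φ i * f q i * (M φ j * f q j) =
            ∑ i, ∑ j, ∑ φ, M φ i * f q i * (M φ j * f q j) := by
          rw [Finset.sum_comm]
          refine Finset.sum_congr rfl fun i _ => ?_
          rw [Finset.sum_comm]
        rw [Finset.sum_congr rfl (fun φ _ => h0 φ), h3]
        simp only [hP, Finset.mul_sum]
        refine Finset.sum_congr rfl fun i _ => Finset.sum_congr rfl fun j _ => ?_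
        have h4 : ∑ φ, M φ i * f q i * (M φ j * f q j) = f q i * f q j * ∑ φ, M i φ * M φ j := by
          rw [Finset.mul_sum]
          refine Finset.sum_congr rfl fun φ _ => ?_
          rw [hsym i φ]
          ring
        rw [h4, hsq]
        ring
      rw [Finset.sum_congr rfl (fun q _ => h2 q), Finset.sum_comm,
        Finset.sum_congr rfl (fun φ _ => hfr φ φ), ← Finset.mul_sum, htr]
      push_cast
      ring
    have h5 := mul_left_cancel₀ hp0.ne' h1
    rw [h5]
  · intro q q'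
    rw [Finset.sum_mul_sum]
    simp only [hP, Finset.mul_sum]
    push_cast
    refine Finset.sum_congr rfl fun θ _ => Finset.sum_congr rfl fun η _ => ?_
    rw [hred]
    ring
  · intro q hq
    have h1 : ∑ θ, (f q θ : K) * s θ = c * ∑ θ, (f q θ : K) * w θ := by
      rw [Finset.mul_sum]
      refine Finset.sum_congr rfl fun θ _ => ?_
      rw [hs]
      ring
    rw [h1]
    exact mul_ne_zero hc (hH q hq)

end Pool.Agent.Helper97.KB
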