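import Mathlib
import Pool.Graph.R_pool_sql_team_seeded_63374d34.N20.Sub2

/-!
Pairs with different values, modulo `p`.
-/

set_option autoImplicit false

open scoped BigOperators Classical
open Pool.Agent.N20

noncomputable section

namespace Pool.Agent.Helper97.KB

/-- The count, for values in a field of characteristic `p`. -/
theorem pair_count_field {p k : ℕ} [hp : Fact p.Prime] [NeZero (p ^ (k + 1))] {K : Type} [Field K]
    [CharP K p] (a : ZMod (p ^ (k + 1)) → K) (h : ∑ i, a i ≠ 0) :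
    2 * (p - 1) ≤ (Finset.univ.filter (fun q : ZMod (p ^ (k + 1)) × ZMod (p ^ (k + 1)) =>
      RR p k q.1 q.2 ∧ a q.1 - a q.2 ≠ 0)).card := by
  obtain ⟨i₀, i₁, hR, hne⟩ : ∃ i₀ i₁, RR p k i₀ i₁ ∧ a i₀ ≠ a i₁ := by
    by_contra hcon
    push Not at hcon
    apply h
    rw [← Finset.sum_fiberwise (s := Finset.univ)
      (g := fun i : ZMod (p ^ (k + 1)) => (p : ZMod (p ^ (k + 1))) * i)]
    refine Finset.sum_eq_zero fun y _ => ?_
    by_cases hy : ∃ i₀, (p : ZMod (p ^ (k + 1))) * i₀ = y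
    · obtain ⟨i₀, rfl⟩ := hy
      have h1 : ∀ i ∈ Finset.univ.filter (fun i : ZMod (p ^ (k + 1)) =>
          (p : ZMod (p ^ (k + 1))) * i = p * i₀), a i = a i₀ := by
        intro i hi
        have hi' := (Finset.mem_filter.mp hi).2
        exact hcon i i₀ (by unfold RR; rw [mul_sub, hi', sub_self])
      rw [Finset.sum_congr rfl h1, Finset.sum_const]
      have h2 : (Finset.univ.filter (fun i : ZMod (p ^ (k + 1)) =>
          (p : ZMod (p ^ (k + 1))) * i = p * i₀)).card = p := by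
        refine Eq.trans ?_ (card_coset (p := p) (k := k) i₀)
        congr 1
        ext i
        simp only [Finset.mem_filter, Finset.mem_univ, true_and]
        unfold RR
        rw [mul_sub, sub_eq_zero]
        exact eq_comm
      rw [h2, nsmul_eq_mul, CharP.cast_eq_zero, zero_mul]
    · rw [Finset.sum_eq_zero]
      intro i hi
      exact absurd ⟨i, (Finset.mem_filter.mp hi).2⟩ hy
  set C := Finset.univ.filter (fun j : ZMod (p ^ (k + 1)) => RR p k i₀ j) with hC
  have hCcard : C.card = p := card_coset i₀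
  set E₀ := C.filter (fun j => a j = a i₀) with hE₀
  set E₁ := C.filter (fun j => ¬ a j = a i₀) with hE₁
  have hsum : E₀.card + E₁.card = p :=
    (Finset.card_filter_add_card_filter_not _).trans hCcard
  have h0 : 0 < E₀.card := by
    apply Finset.card_pos.mpr
    refine ⟨i₀, ?_⟩
    rw [hE₀, Finset.mem_filter, hC, Finset.mem_filter]
    refine ⟨⟨Finset.mem_univ _, ?_⟩, rfl⟩
    unfold RR
    rw [sub_self, mul_zero]
  have h1 : 0 < E₁.card := by
    apply Finset.card_pos.mpr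
    refine ⟨i₁, ?_⟩
    rw [hE₁, Finset.mem_filter, hC, Finset.mem_filter]
    exact ⟨⟨Finset.mem_univ _, hR⟩, fun h => hne h.symm⟩
  have hmul : p - 1 ≤ E₀.card * E₁.card := by
    obtain ⟨a, ha⟩ := Nat.exists_eq_add_of_lt h0
    obtain ⟨b, hb⟩ := Nat.exists_eq_add_of_lt h1
    rw [ha, hb] at hsum ⊢
    have : p - 1 = a + b + 1 := by omega
    rw [this]
    nlinarith [Nat.zero_le (a * b)]
  have hdisj : Disjoint (E₀ ×ˢ E₁) (E₁ ×ˢ E₀) := by
    rw [Finset.disjoint_left]
    rintro ⟨a, b⟩ h2 h3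
    rw [Finset.mem_product] at h2 h3
    exact (Finset.mem_filter.mp h3.1).2 (Finset.mem_filter.mp h2.1).2
  have hsub : (E₀ ×ˢ E₁) ∪ (E₁ ×ˢ E₀) ⊆
      Finset.univ.filter (fun q : ZMod (p ^ (k + 1)) × ZMod (p ^ (k + 1)) =>
        RR p k q.1 q.2 ∧ a q.1 - a q.2 ≠ 0) := by
    rintro ⟨x, y⟩ h2
    rw [Finset.mem_filter]
    refine ⟨Finset.mem_univ _, ?_⟩
    rcases Finset.mem_union.mp h2 with h2 | h2
    · obtain ⟨ha, hb⟩ := Finset.mem_product.mp h2
      obtain ⟨ha1, ha2⟩ := Finset.mem_filter.mp ha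
      obtain ⟨hb1, hb2⟩ := Finset.mem_filter.mp hb
      refine ⟨RR_trans (RR_symm (Finset.mem_filter.mp ha1).2) (Finset.mem_filter.mp hb1).2, ?_⟩
      intro h3
      exact hb2 ((sub_eq_zero.mp h3) ▸ ha2)
    · obtain ⟨ha, hb⟩ := Finset.mem_product.mp h2
      obtain ⟨ha1, ha2⟩ := Finset.mem_filter.mp ha
      obtain ⟨hb1, hb2⟩ := Finset.mem_filter.mp hb
      refine ⟨RR_trans (RR_symm (Finset.mem_filter.mp ha1).2) (Finset.mem_filter.mp hb1).2, ?_⟩
      intro h3
      exact ha2 ((sub_eq_zero.mp h3).trans hb2)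
  calc 2 * (p - 1) ≤ 2 * (E₀.card * E₁.card) := Nat.mul_le_mul_left 2 hmul
    _ = ((E₀ ×ˢ E₁) ∪ (E₁ ×ˢ E₀)).card := by
      rw [Finset.card_union_of_disjoint hdisj, Finset.card_product, Finset.card_product]
      ring
    _ ≤ _ := Finset.card_le_card hsub

end Pool.Agent.Helper97.KB
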