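import Mathlib
import Pool.Agent.Helper97.KB.Stm
import Pool.Agent.Helper97.KB.AMat
import Pool.Agent.Helper97.KB.APair

/-!
Characters of height zero and a subsection.
-/

set_option autoImplicit false
set_option linter.style.haveILetI false
set_option linter.unusedSectionVars false

open scoped BigOperators Classical
open Pool.Agent.Helper884 Pool.Agent.H254R3.IN Pool.Agent.N20

noncomputable section

namespace Pool.Agent.Helper97.KB

variable {G : Type} [Group G] [Fintype G]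

theorem a_main {p : ℕ} (hp : p.Prime) {O : ValuationSubring ℂ}
    (hpO : (p : ℂ) ∈ O.nonunits) {u : G} {k : ℕ} (hu : orderOf u = p ^ (k + 1))
    {b : Set (CC u → ℂ)} (hb : IsBlock O b) {D' : Subgroup (CC u)}
    (hD' : IsDefectGroup p O b D') (S : Set (G → ℂ)) (hS : ∀ χ ∈ S, IsIrr χ)
    (hnz : ∀ θ ∈ b, red O (uu D' θ) ≠ 0 → ∀ χ ∈ S,
      red O ((Nat.card D' : ℂ) * JJ p u 1 θ χ) ≠ 0) :
    p * Nat.card S ^ 2 ≤ 7 * Nat.card D' ^ 2 * max p (lB p b) := by
  haveI : Fact p.Prime := ⟨hp⟩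
  haveI := charP_RF hpO
  haveI : NeZero (p ^ (k + 1)) := ⟨pow_ne_zero _ hp.ne_zero⟩
  obtain ⟨d, hd⟩ := IsPGroup.iff_card.mp (N20.defect_pgroup hD')
  have hD0 : (Nat.card D' : ℂ) ≠ 0 := by exact_mod_cast Nat.card_pos.ne'
  have hDp : (Nat.card D' : ℂ) = (p : ℂ) ^ d := by rw [hd]; push_cast; rfl
  have hmem : ∀ θ : {θ // θ ∈ XB b}, (θ : CC u → ℂ) ∈ b := fun θ => (mem_XB hb.irr).mp θ.2
  have hirr : ∀ θ : {θ // θ ∈ XB b}, IsIrr (θ : CC u → ℂ) := fun θ => hb.irr _ (hmem θ)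
  choose M hM using fun θ η : {θ // θ ∈ XB b} => contr_int hpO hb hD' (hmem θ) (hmem η)
  have hsym : ∀ θ η : {θ // θ ∈ XB b}, M θ η = M η θ := by
    intro θ η
    have : (M θ η : ℂ) = M η θ := by
      rw [hM, hM, B_cut_comm]
    exact_mod_cast this
  have hsq : ∀ θ η, ∑ φ, M θ φ * M φ η = p ^ d * M θ η := by
    intro θ η
    have : ((∑ φ, M θ φ * M φ η : ℤ) : ℂ) = ((p ^ d * M θ η : ℤ) : ℂ) := by
      have h1 := B_cut_idem hpO hb (χ := θ) (ψ := η) (hmem θ)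
      rw [← Finset.sum_coe_sort (XB b)
        (fun φ : CC u → ℂ => IC.B (cut p (θ : CC u → ℂ)) φ * IC.B (cut p φ) η)] at h1
      push_cast
      simp only [hM]
      rw [← h1, ← hDp, Finset.mul_sum, Finset.mul_sum]
      refine Finset.sum_congr rfl fun φ _ => ?_
      ring
    exact_mod_cast this
  have htr : ∑ θ, M θ θ = p ^ d * (lB p b : ℤ) := by
    have : ((∑ θ, M θ θ : ℤ) : ℂ) = ((p ^ d * (lB p b : ℤ) : ℤ) : ℂ) := by
      push_cast
      simp only [hM]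
      rw [← trace_eq hpO hb, ← Finset.mul_sum,
        ← Finset.sum_coe_sort (XB b) (fun φ : CC u → ℂ => IC.B (cut p φ) φ), hDp]
    exact_mod_cast this
  obtain ⟨θ₀, hθ₀, hθ₀ne⟩ := exists_uu_ne hpO hb hD'
  have hredM : ∀ θ η, ((M θ η : ℤ) : RF O) = red O (uu D' (θ : CC u → ℂ)) * sr p O θ₀ η := by
    intro θ η
    rw [← red_intCast, hM, card_mul_B D' (hirr θ) (fun g y => (hirr η).conj g y),
      red_mul (N20.uu_mem hpO hb hD' (hmem θ)) (SS_mem (hirr θ) (hirr η)), red_SS (hirr θ) (hirr η),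
      sr_block hb (hmem θ) hθ₀]
  have hX : ∀ χ : {χ // χ ∈ IC.Irr G}, IsIrr (χ : G → ℂ) := fun χ => mem_Irr.mp χ.2
  choose n hn using fun (χ : {χ // χ ∈ IC.Irr G}) (η : {θ // θ ∈ XB b}) =>
    mm_int u (hX χ) (hirr η)
  have K1 : ∀ (t : ℕ) (θ : {θ // θ ∈ XB b}) (χ : {χ // χ ∈ IC.Irr G}),
      (Nat.card D' : ℂ) * JJ p u t θ χ = ∑ η : {θ // θ ∈ XB b},
        (M θ η : ℂ) * n χ η * cu u (η : CC u → ℂ) ^ t := by
    intro t θ χ
    rw [JJ_eq hpO u hb (hmem θ) (hX χ) t, Finset.mul_sum,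
      ← Finset.sum_coe_sort (XB b) (fun η : CC u → ℂ =>
        (Nat.card D' : ℂ) * (mm u χ η * cu u η ^ t * IC.B (cut p (θ : CC u → ℂ)) η))]
    refine Finset.sum_congr rfl fun η _ => ?_
    rw [hM, hn]
    ring
  have K2 : ∀ (t : ℕ), Nat.Coprime t p → ∀ θ θ' : {θ // θ ∈ XB b},
      ∑ χ : {χ // χ ∈ IC.Irr G}, (starRingEnd ℂ) ((Nat.card D' : ℂ) * JJ p u t θ χ) *
        ((Nat.card D' : ℂ) * JJ p u t θ' χ) = (Nat.card D' : ℂ) * M θ θ' := by
    intro t ht θ θ'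
    have h1 := sec_frame hu ht (a := (θ : CC u → ℂ)) (a' := (θ' : CC u → ℂ))
      (fun s => (Pool.Agent.Y62.conj_char (hirr θ) s).symm) (fun g y => (hirr θ').conj g y)
      (fun s => (Pool.Agent.Y62.conj_char (hirr θ') s).symm)
    rw [← Finset.sum_coe_sort (IC.Irr G) (fun χ : G → ℂ =>
      (starRingEnd ℂ) (JJ p u t (θ : CC u → ℂ) χ) * JJ p u t (θ' : CC u → ℂ) χ)] at h1
    rw [hM, ← h1, Finset.mul_sum, Finset.mul_sum]
    refine Finset.sum_congr rfl fun χ _ => ?_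
    rw [map_mul, Complex.conj_natCast]
    ring
  have hcB : Nat.card S = (Finset.univ.filter
      (fun χ : {χ // χ ∈ IC.Irr G} => (χ : G → ℂ) ∈ S)).card := by
    rw [← Fintype.card_subtype, ← Nat.card_eq_fintype_card]
    refine Nat.card_congr ?_
    exact
      { toFun := fun χ => ⟨⟨χ, mem_Irr.mpr (hS χ χ.2)⟩, χ.2⟩
        invFun := fun χ => ⟨χ.1, χ.2⟩
        left_inv := fun _ => rfl
        right_inv := fun _ => rfl }
  have hcu : ∀ η : {θ // θ ∈ XB b}, ∃ j, ch p k j = cu u (η : CC u → ℂ) := by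
    intro η
    apply exists_jj
    rw [← hu]
    exact cu_pow u (hirr η)
  choose jj hjj using hcu
  set m : {χ // χ ∈ IC.Irr G} → {θ // θ ∈ XB b} → ZMod (p ^ (k + 1)) → ℤ :=
    fun χ θ i => ∑ η, M θ η * (if jj η = i then n χ η else 0) with hm
  have K4 : ∀ (t : ZMod (p ^ (k + 1))) (θ : {θ // θ ∈ XB b}) (χ : {χ // χ ∈ IC.Irr G}),
      ∑ i, ch p k (t * i) * m χ θ i = (Nat.card D' : ℂ) * JJ p u t.val θ χ := by
    intro t θ χ
    rw [K1]
    simp only [hm]
    push_cast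
    simp only [Finset.mul_sum]
    rw [Finset.sum_comm]
    refine Finset.sum_congr rfl fun η _ => ?_
    rw [Finset.sum_eq_single (jj η)]
    · rw [if_pos rfl, ← hjj, ← AddChar.map_nsmul_eq_pow, nsmul_eq_mul, ZMod.natCast_zmod_val]
      ring
    · intro i _ hi
      rw [if_neg (Ne.symm hi)]
      ring
    · intro h
      exact absurd (Finset.mem_univ _) h
  set f : {χ // χ ∈ IC.Irr G} × ZMod (p ^ (k + 1)) × ZMod (p ^ (k + 1)) →
      {θ // θ ∈ XB b} → ℤ := fun q η => if RR p k q.2.1 q.2.2 then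
        (if jj η = q.2.1 then n q.1 η else 0) - (if jj η = q.2.2 then n q.1 η else 0) else 0
    with hf
  have hfM : ∀ (θ : {θ // θ ∈ XB b}) q, ∑ η, M θ η * f q η =
      if RR p k q.2.1 q.2.2 then m q.1 θ q.2.1 - m q.1 θ q.2.2 else 0 := by
    intro θ q
    simp only [hf, hm]
    split_ifs with h
    · rw [← Finset.sum_sub_distrib]
      refine Finset.sum_congr rfl fun η _ => ?_
      ring
    · simp
  have hfr : ∀ θ θ', ∑ q, (∑ η, M θ η * f q η) * (∑ η, M θ' η * f q η) =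
      ((2 * (p - 1) : ℕ) : ℤ) * p ^ d * M θ θ' := by
    intro θ θ'
    simp only [hfM]
    have h1 := int_frame (fun χ i => m χ θ i) (fun χ i => m χ θ' i) (p ^ d * M θ θ') (by
      intro t ht
      simp only [K4]
      have ht' : Nat.Coprime t.val p := by
        rw [mem_NT] at ht
        exact ((Nat.Prime.coprime_iff_not_dvd hp).mpr ht).symm
      rw [K2 t.val ht' θ θ', hDp]
      push_cast
      rfl)
    rw [Fintype.sum_prod_type]
    simp only [Fintype.sum_prod_type]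
    have h2 : ∀ (χ : {χ // χ ∈ IC.Irr G}) (i j : ZMod (p ^ (k + 1))),
        (if RR p k i j then m χ θ i - m χ θ j else 0) *
          (if RR p k i j then m χ θ' i - m χ θ' j else 0) =
        if RR p k i j then (m χ θ i - m χ θ j) * (m χ θ' i - m χ θ' j) else 0 := by
      intro χ i j
      split_ifs <;> ring
    simp only [h2]
    rw [h1]
    have h3 : ((2 * (p - 1) : ℕ) : ℤ) = 2 * ((p : ℤ) - 1) := by
      rw [Nat.cast_mul, Nat.cast_sub hp.one_lt.le]
      simp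
    rw [h3]
    ring
  set a : {χ // χ ∈ IC.Irr G} → ZMod (p ^ (k + 1)) → RF O := fun χ i =>
    ∑ θ : {θ // θ ∈ XB b}, (((if jj θ = i then n χ θ else 0 : ℤ)) : RF O) *
      red O (uu D' (θ : CC u → ℂ)) with ha
  have hfa : ∀ q, ∑ θ, (f q θ : RF O) * red O (uu D' (θ : CC u → ℂ)) =
      if RR p k q.2.1 q.2.2 then a q.1 q.2.1 - a q.1 q.2.2 else 0 := by
    intro q
    simp only [hf, ha]
    split_ifs with h
    · rw [← Finset.sum_sub_distrib]
      refine Finset.sum_congr rfl fun η _ => ?_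
      push_cast
      ring
    · simp
  have hcc : ccG O p D' θ₀ ≠ 0 := cc_ne hpO hb hD' hθ₀
  have hs : ∀ η : {θ // θ ∈ XB b}, sr p O θ₀ η = ccG O p D' θ₀ * red O (uu D' (η : CC u → ℂ)) := by
    intro η
    rw [sr_eq hpO hb hD' hθ₀ (hmem η), mul_comm]
  have hasum : ∀ χ : {χ // χ ∈ IC.Irr G}, (χ : G → ℂ) ∈ S → ∑ i, a χ i ≠ 0 := by
    intro χ hχ h0
    have h1 := hnz θ₀ hθ₀ hθ₀ne χ hχ
    apply h1
    have h2 := K1 1 ⟨θ₀, (mem_XB hb.irr).mpr hθ₀⟩ χ
    have hcuO : ∀ η : {θ // θ ∈ XB b}, cu u (η : CC u → ℂ) ^ 1 ∈ O ∧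
        red O (cu u (η : CC u → ℂ) ^ 1) = 1 := by
      intro η
      have h3 : cu u (η : CC u → ℂ) ^ p ^ (k + 1) = 1 := by
        rw [← hu]
        exact cu_pow u (hirr η)
      rw [pow_one]
      exact ⟨Pool.Agent.Y62.root_mem (pow_ne_zero _ hp.ne_zero) h3,
        Pool.Agent.Y62.red_root hpO h3⟩
    have hmemO : ∀ η : {θ // θ ∈ XB b}, (M ⟨θ₀, (mem_XB hb.irr).mpr hθ₀⟩ η : ℂ) * n χ η *
        cu u (η : CC u → ℂ) ^ 1 ∈ O := fun η =>
      O.mul_mem _ _ (O.mul_mem _ _ (intCast_mem' _) (intCast_mem' _)) (hcuO η).1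
    rw [h2, red_sum _ _ (fun η _ => hmemO η)]
    have h4 : ∀ η : {θ // θ ∈ XB b}, red O ((M ⟨θ₀, (mem_XB hb.irr).mpr hθ₀⟩ η : ℂ) * n χ η *
        cu u (η : CC u → ℂ) ^ 1) = red O (uu D' θ₀) * ccG O p D' θ₀ *
          ((n χ η : RF O) * red O (uu D' (η : CC u → ℂ))) := by
      intro η
      rw [red_mul (O.mul_mem _ _ (intCast_mem' _) (intCast_mem' _)) (hcuO η).1, (hcuO η).2,
        red_mul (intCast_mem' _) (intCast_mem' _), red_intCast, red_intCast, hredM, hs]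
      ring
    rw [Finset.sum_congr rfl (fun η _ => h4 η), ← Finset.mul_sum]
    have h5 : ∑ η : {θ // θ ∈ XB b}, (n χ η : RF O) * red O (uu D' (η : CC u → ℂ)) =
        ∑ i, a χ i := by
      simp only [ha]
      rw [Finset.sum_comm]
      refine Finset.sum_congr rfl fun η _ => ?_
      rw [← Finset.sum_mul]
      congr 1
      rw [Finset.sum_eq_single (jj η)]
      · rw [if_pos rfl]
      · intro i _ hi
        rw [if_neg (Ne.symm hi)]
        simp
      · intro h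
        exact absurd (Finset.mem_univ _) h
    rw [h5, h0, mul_zero]
  set H : Finset ({χ // χ ∈ IC.Irr G} × ZMod (p ^ (k + 1)) × ZMod (p ^ (k + 1))) :=
    Finset.univ.filter (fun q => ∑ θ, (f q θ : RF O) * red O (uu D' (θ : CC u → ℂ)) ≠ 0) with hH
  have hcard : 2 * (p - 1) * Nat.card S ≤ H.card := by
    calc 2 * (p - 1) * Nat.card S
        = ∑ χ ∈ Finset.univ.filter (fun χ : {χ // χ ∈ IC.Irr G} => (χ : G → ℂ) ∈ S),
            2 * (p - 1) := by
          rw [Finset.sum_const, hcB, smul_eq_mul, mul_comm]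
      _ ≤ ∑ χ ∈ Finset.univ.filter (fun χ : {χ // χ ∈ IC.Irr G} => (χ : G → ℂ) ∈ S),
          (Finset.univ.filter (fun q : ZMod (p ^ (k + 1)) × ZMod (p ^ (k + 1)) =>
            RR p k q.1 q.2 ∧ a χ q.1 - a χ q.2 ≠ 0)).card :=
          Finset.sum_le_sum fun χ hχ =>
            pair_count_field (a χ) (hasum χ (Finset.mem_filter.mp hχ).2)
      _ ≤ ∑ χ : {χ // χ ∈ IC.Irr G},
          (Finset.univ.filter (fun q : ZMod (p ^ (k + 1)) × ZMod (p ^ (k + 1)) =>
            RR p k q.1 q.2 ∧ a χ q.1 - a χ q.2 ≠ 0)).card :=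
          Finset.sum_le_sum_of_subset (Finset.subset_univ _)
      _ = _ := by
          simp only [hH, Finset.card_filter]
          rw [Fintype.sum_prod_type]
          refine Finset.sum_congr rfl fun χ _ => Finset.sum_congr rfl fun q _ => ?_
          rw [hfa]
          by_cases h3 : RR p k q.1 q.2
          · simp only [h3, true_and, if_true]
          · simp [h3]
  have hfin := mat_sub (Q := {χ // χ ∈ IC.Irr G} × ZMod (p ^ (k + 1)) × ZMod (p ^ (k + 1)))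
    (N₀ := 2 * (p - 1)) hp M hsym hsq htr (K := RF O)
    (fun θ => red O (uu D' (θ : CC u → ℂ))) (fun η => sr p O θ₀ η) hredM (ccG O p D' θ₀) hcc hs
    f (by have := hp.one_lt; omega) hfr H (fun q hq => (Finset.mem_filter.mp hq).2)
  have hN : 0 < 2 * (p - 1) := by have := hp.one_lt; omega
  have h1 : (2 * (p - 1)) ^ 2 * (p * Nat.card S ^ 2) ≤
      (2 * (p - 1)) ^ 2 * (7 * Nat.card D' ^ 2 * max p (lB p b)) := by
    calc (2 * (p - 1)) ^ 2 * (p * Nat.card S ^ 2) = p * (2 * (p - 1) * Nat.card S) ^ 2 := by ring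
      _ ≤ p * H.card ^ 2 := by gcongr
      _ ≤ 7 * (2 * (p - 1) * p ^ d) ^ 2 * max p (lB p b) := hfin
      _ = _ := by rw [hd]; ring
  exact Nat.le_of_mul_le_mul_left h1 (by positivity)

theorem a : S_A := by
  intro G _ _ p hp O hpO B hB D hD u k hu b hb D' hD' hbB
  refine a_main hp.out hpO hu hb hD' {χ | χ ∈ B ∧ red O (uu D χ) ≠ 0}
    (fun χ hχ => hB.irr χ hχ.1) ?_
  rintro θ hθ hθne χ ⟨hχ, hh⟩
  have hX := hB.irr χ hχ
  have hθi := hb.irr θ hθ
  rw [card_JJ2 D' hX hθi, red_mul (N20.uu_mem hpO hb hD' hθ) (TH_mem hX hθi),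
    red_TH hpO hB hu hb hbB hχ hθ]
  refine mul_ne_zero hθne ?_
  rw [sr_eq hpO hB hD hχ hχ]
  exact mul_ne_zero hh (cc_ne hpO hB hD hχ)

end Pool.Agent.Helper97.KB
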