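import Mathlib

/-!
The numbers.
-/

set_option autoImplicit false

noncomputable section

namespace Pool.Agent.Helper97.KB

/-- the exponent -/
def EE (r : ℝ) : ℝ := 2 * r - 3 + 2 ^ (2 - r)

lemma EE_succ {r : ℝ} (hr : 1 ≤ r) : EE r + 1 ≤ EE (r + 1) := by
  unfold EE
  have h1 : (2 : ℝ) ^ (2 - r) = 2 * 2 ^ (2 - (r + 1)) := by
    rw [show (2 - r : ℝ) = 1 + (2 - (r + 1)) by ring, Real.rpow_add (by norm_num), Real.rpow_one]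
  have h2 : (2 : ℝ) ^ (2 - (r + 1)) ≤ 1 :=
    Real.rpow_le_one_of_one_le_of_nonpos (by norm_num) (by linarith)
  rw [h1]
  linarith

lemma EE_one : EE 1 = 1 := by
  unfold EE
  norm_num

lemma EE_mono {s r : ℕ} (hs : 1 ≤ s) (h : s ≤ r) : EE s ≤ EE r := by
  induction r, h using Nat.le_induction with
  | base => exact le_rfl
  | succ r hr ih =>
    have h1 := EE_succ (r := r) (by exact_mod_cast hs.trans hr)
    push_cast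
    linarith

lemma one_le_EE {r : ℕ} (hr : 1 ≤ r) : 1 ≤ EE r := by
  have h1 := EE_mono le_rfl hr
  rw [Nat.cast_one, EE_one] at h1
  exact h1

/-- the bound -/
def FF (p r : ℕ) : ℝ := 9 * (p : ℝ) ^ EE r

theorem num_step {p d k r k0 k1 x : ℕ} (hp : 2 ≤ p) (hr : 1 ≤ r) (hd : d = k + 1 + r)
    (hx : (x : ℝ) ≤ FF p r) (h1 : p * k0 ^ 2 ≤ 7 * (p ^ d) ^ 2 * max p x)
    (h2 : p ^ (k + 1) * (k0 + p ^ 2 * k1) ≤ (p ^ d) ^ 2) :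
    (k0 + k1 : ℝ) ≤ 9 * (p : ℝ) ^ (2 * (d : ℝ) - 2 - (k + 1 : ℝ) + 2 ^ (1 - (r : ℝ))) := by
  have hp0 : (0 : ℝ) < p := by exact_mod_cast (by omega : 0 < p)
  have hp1 : (1 : ℝ) ≤ p := by exact_mod_cast (by omega : 1 ≤ p)
  set T : ℝ := 2 * (d : ℝ) - 2 - (k + 1 : ℝ) + 2 ^ (1 - (r : ℝ)) with hT
  have hdr : (d : ℝ) = k + 1 + r := by rw [hd]; push_cast; ring
  have h2T : 1 + 2 * T = 2 * d + EE r := by
    have e1 : (2 : ℝ) ^ (2 - (r : ℝ)) = 2 * 2 ^ (1 - (r : ℝ)) := by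
      rw [show (2 - (r : ℝ)) = 1 + (1 - (r : ℝ)) by ring, Real.rpow_add (by norm_num),
        Real.rpow_one]
    rw [hT, EE, e1, hdr]
    ring
  have hmax : ((max p x : ℕ) : ℝ) ≤ 9 * (p : ℝ) ^ EE r := by
    rw [Nat.cast_max]
    refine max_le ?_ hx
    have e1 : (p : ℝ) ^ (1 : ℝ) ≤ (p : ℝ) ^ EE r :=
      Real.rpow_le_rpow_of_exponent_le hp1 (one_le_EE hr)
    rw [Real.rpow_one] at e1
    have e2 : (0 : ℝ) ≤ (p : ℝ) ^ EE r := Real.rpow_nonneg hp0.le _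
    linarith
  have h1' : (p : ℝ) * (k0 : ℝ) ^ 2 ≤ 7 * ((p : ℝ) ^ d) ^ 2 * (max p x : ℕ) := by
    exact_mod_cast h1
  have h3 : (p : ℝ) * (k0 : ℝ) ^ 2 ≤ p * (8 * (p : ℝ) ^ T) ^ 2 := by
    calc (p : ℝ) * (k0 : ℝ) ^ 2 ≤ 7 * ((p : ℝ) ^ d) ^ 2 * (max p x : ℕ) := h1'
      _ ≤ 7 * ((p : ℝ) ^ d) ^ 2 * (9 * (p : ℝ) ^ EE r) := by gcongr
      _ = 63 * ((p : ℝ) ^ (2 * (d : ℝ) + EE r)) := by
          rw [Real.rpow_add hp0, show (2 * (d : ℝ)) = ((2 * d : ℕ) : ℝ) by push_cast; ring,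
            Real.rpow_natCast]
          ring
      _ = 63 * ((p : ℝ) ^ (1 + 2 * T)) := by rw [h2T]
      _ = 63 * (p * ((p : ℝ) ^ T) ^ 2) := by
          rw [Real.rpow_add hp0, Real.rpow_one, mul_comm (2 : ℝ) T, Real.rpow_mul hp0.le]
          norm_num
      _ ≤ 64 * (p * ((p : ℝ) ^ T) ^ 2) := by
          have : 0 ≤ (p : ℝ) * ((p : ℝ) ^ T) ^ 2 := by positivity
          linarith
      _ = p * (8 * (p : ℝ) ^ T) ^ 2 := by ring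
  have hk0 : (k0 : ℝ) ≤ 8 * (p : ℝ) ^ T := by
    have h4 := le_of_mul_le_mul_left h3 hp0
    exact (sq_le_sq₀ (Nat.cast_nonneg _) (by positivity)).mp h4
  have hk1 : (k1 : ℝ) ≤ (p : ℝ) ^ T := by
    have h4 : p ^ (k + 1) * (p ^ 2 * k1) ≤ (p ^ d) ^ 2 :=
      le_trans (Nat.mul_le_mul_left _ (Nat.le_add_left _ _)) h2
    have h5 : (p : ℝ) ^ (k + 1) * ((p : ℝ) ^ 2 * k1) ≤ ((p : ℝ) ^ d) ^ 2 := by exact_mod_cast h4
    have h6 : (p : ℝ) ^ (k + 1) * (p : ℝ) ^ 2 * (p : ℝ) ^ (2 * (d : ℝ) - 2 - (k + 1 : ℝ)) =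
        ((p : ℝ) ^ d) ^ 2 := by
      rw [← Real.rpow_natCast (p : ℝ) (k + 1), ← Real.rpow_natCast (p : ℝ) 2,
        ← Real.rpow_add hp0, ← Real.rpow_add hp0, ← Real.rpow_natCast (p : ℝ) d, ← Real.rpow_natCast _ 2,
        ← Real.rpow_mul hp0.le]
      congr 1
      push_cast
      ring
    have h7 : (k1 : ℝ) ≤ (p : ℝ) ^ (2 * (d : ℝ) - 2 - (k + 1 : ℝ)) := by
      have h8 : (0 : ℝ) < (p : ℝ) ^ (k + 1) * (p : ℝ) ^ 2 := by positivity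
      refine le_of_mul_le_mul_left ?_ h8
      rw [h6]
      calc (p : ℝ) ^ (k + 1) * (p : ℝ) ^ 2 * k1 = (p : ℝ) ^ (k + 1) * ((p : ℝ) ^ 2 * k1) := by ring
        _ ≤ _ := h5
    refine h7.trans (Real.rpow_le_rpow_of_exponent_le hp1 ?_)
    have : (0 : ℝ) ≤ 2 ^ (1 - (r : ℝ)) := Real.rpow_nonneg (by norm_num) _
    linarith
  linarith

end Pool.Agent.Helper97.KB
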