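import Mathlib
import Pool.Agent.Helper97.KB.A
import Pool.Graph.R_pool_sql_team_seeded_3997aac3.Q17.DC.All2

/-!
The recursion.
-/

set_option autoImplicit false
set_option linter.style.haveILetI false
set_option linter.unusedSectionVars false

open scoped BigOperators Classical
open Pool.Agent.Helper884 Pool.Agent.H254R3.IN Pool.Agent.N20

noncomputable section

namespace Pool.Agent.Helper97.KB

/-- all blocks of defect `r` have at most `x` characters -/
def Kb (p : ℕ) (O : ValuationSubring ℂ) (r : ℕ) (x : ℕ) : Prop :=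
  ∀ (G : Type) [Group G] [Fintype G] (B : Set (G → ℂ)) (D : Subgroup G), IsBlock O B →
    IsDefectGroup p O B D → Nat.card D = p ^ r → Nat.card B ≤ x

variable {p : ℕ} [hp : Fact p.Prime] {O : ValuationSubring ℂ}

lemma finite_block {G : Type} [Group G] [Fintype G] {B : Set (G → ℂ)} (hB : IsBlock O B) :
    Finite B := by
  have : B ⊆ (XB B : Set (G → ℂ)) := fun χ hχ => (mem_XB hB.irr).mpr hχ
  exact Set.Finite.subset (Finset.finite_toSet _) this

lemma card_eq_add {G : Type} [Group G] [Fintype G] {B : Set (G → ℂ)} (hB : IsBlock O B)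
    (D : Subgroup G) : Nat.card B = k0 O B D + k1 O B D := by
  haveI := finite_block hB
  have h1 := Nat.card_congr (Equiv.sumCompl fun χ : B => red O (uu D (χ : G → ℂ)) ≠ 0)
  rw [Nat.card_sum] at h1
  rw [← h1]
  unfold k0 k1
  congr 1
  · exact Nat.card_congr
      { toFun := fun χ => ⟨χ.1.1, χ.1.2, χ.2⟩
        invFun := fun χ => ⟨⟨χ.1, χ.2.1⟩, χ.2.2⟩
        left_inv := fun _ => rfl
        right_inv := fun _ => rfl }
  · exact Nat.card_congr
      { toFun := fun χ => ⟨χ.1.1, χ.1.2, not_not.mp χ.2⟩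
        invFun := fun χ => ⟨⟨χ.1, χ.2.1⟩, not_not.mpr χ.2.2⟩
        left_inv := fun _ => rfl
        right_inv := fun _ => rfl }

/-- blocks of defect zero -/
lemma kb_zero (hpO : (p : ℂ) ∈ O.nonunits) : Kb p O 0 1 := by
  intro G _ _ B D hB hD hc
  have h1 := block_bound hp.out hpO hB hD
  have h2 := lB_le (p := p) hB
  rw [hc, pow_zero, one_mul] at h1
  rcases le_total p (lB p B) with h4 | h4
  · rw [max_eq_right h4] at h1
    have h5 := hp.out.two_le
    nlinarith
  · rw [max_eq_left h4] at h1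
    exact Nat.le_of_mul_le_mul_left (by rwa [mul_one]) hp.out.pos

/-- The quotient by a central subgroup. -/
lemma lB_bound (hpO : (p : ℂ) ∈ O.nonunits) (hSpa : S_Spa) (hDom : S_Dom) {r x : ℕ}
    (hx : ∀ s ≤ r, Kb p O s x) {H : Type} [Group H] [Fintype H] (Z : Subgroup H) [Z.Normal]
    (hZ : Z ≤ Subgroup.center H) (hZp : IsPGroup p Z) {b : Set (H → ℂ)} (hb : IsBlock O b)
    {D' : Subgroup H} (hD' : IsDefectGroup p O b D')
    (hcard : Nat.card D' ≤ Nat.card Z * p ^ r) : lB p b ≤ x := by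
  have h1 := hSpa H p O hpO Z hZ hZp b hb
  refine h1.trans ?_
  by_cases hne : Nonempty {ψ : H ⧸ Z → ℂ // IsIrr ψ ∧ (fun h : H => ψ (h : H ⧸ Z)) ∈ b}
  · obtain ⟨ψ₁, hψ₁, hψ₁b⟩ := hne
    obtain ⟨B', D₁, hB', hD₁, hle, hsub⟩ := hDom H p O hpO Z hZ hZp b hb D' hD' ψ₁ hψ₁ hψ₁b
    haveI : Fintype (H ⧸ Z) := Fintype.ofFinite _
    haveI := finite_block hB'
    obtain ⟨s, hs⟩ := IsPGroup.iff_card.mp (N20.defect_pgroup hD₁)
    have hsr : s ≤ r := by
      have h2 := hle.trans hcard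
      have h3 := Nat.le_of_mul_le_mul_left h2 Nat.card_pos
      rw [hs] at h3
      exact (Nat.pow_le_pow_iff_right hp.out.one_lt).mp h3
    have h4 := hx s hsr (H ⧸ Z) B' D₁ hB' hD₁ hs
    refine le_trans ?_ h4
    exact Nat.card_le_card_of_injective
      (fun ψ : {ψ : H ⧸ Z → ℂ // IsIrr ψ ∧ (fun h : H => ψ (h : H ⧸ Z)) ∈ b} =>
        (⟨ψ.1, hsub ψ.1 ψ.2.1 ψ.2.2⟩ : B')) (fun a c h => by
        have h' : a.1 = c.1 := congrArg (fun w : B' => w.1) h
        exact Subtype.ext h')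
  · rw [not_nonempty_iff] at hne
    rw [Nat.card_of_isEmpty]
    exact Nat.zero_le _

/-- The three inequalities. -/
theorem rec_step (hpO : (p : ℂ) ∈ O.nonunits) (hB' : S_B) (hSpa : S_Spa) (hDom : S_Dom)
    (hExt : S_Ext) {r x k : ℕ} (hx : ∀ s ≤ r, Kb p O s x) {G : Type} [Group G] [Fintype G]
    {B : Set (G → ℂ)} {D : Subgroup G} (hB : IsBlock O B) (hD : IsDefectGroup p O B D)
    (hcD : Nat.card D = p ^ (k + 1 + r)) {z : G} (hz : z ∈ D) (hzc : ∀ d ∈ D, Commute z d)
    (hzo : orderOf z = p ^ (k + 1)) :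
    p * k0 O B D ^ 2 ≤ 7 * Nat.card D ^ 2 * max p x ∧
    p ^ (k + 1) * (k0 O B D + p ^ 2 * k1 O B D) ≤ Nat.card D ^ 2 ∧
    (p + 1) * Nat.card B ≤ Nat.card D * max (p + 1) x := by
  obtain ⟨b, D', hb, hD', hcard, hbB⟩ := hExt G p O hpO B hB D hD z hz hzc
  have hcen : Subgroup.zpowers (uc z) ≤ Subgroup.center (CC z) := by
    rw [Subgroup.zpowers_le, Subgroup.mem_center_iff]
    intro g
    exact (uc_comm z g).symm
  haveI : (Subgroup.zpowers (uc z)).Normal :=
    ⟨fun n hn g => by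
      have h1 := Subgroup.mem_center_iff.mp (hcen hn) g
      rw [h1, mul_inv_cancel_right]
      exact hn⟩
  have hord : orderOf (uc z) = p ^ (k + 1) := by
    rw [← hzo]
    exact Subgroup.orderOf_mk z _
  have hcz : Nat.card (Subgroup.zpowers (uc z)) = p ^ (k + 1) := by
    rw [Nat.card_zpowers, hord]
  have hZp : IsPGroup p (Subgroup.zpowers (uc z)) := IsPGroup.of_card hcz
  have hl : lB p b ≤ x := by
    refine lB_bound hpO hSpa hDom hx _ hcen hZp hb hD' ?_
    rw [hcard, hcD, hcz, pow_add]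
  have h1 := a G p O hpO B hB D hD z k hzo b hb D' hD' hbB
  have h2 := hB' G p O hpO B hB D hD z k hzo b hb D' hD' hcard hbB
  have h3 := major_bound hp.out hpO hB hD hzo hb hD' hcard hbB
  rw [hcard] at h1
  exact ⟨h1.trans (Nat.mul_le_mul_left _ (max_le_max le_rfl hl)), h2,
    h3.trans (Nat.mul_le_mul_left _ (max_le_max le_rfl hl))⟩

end Pool.Agent.Helper97.KB
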