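import Mathlib
import Pool.Agent.Helper97.KB.Rec
import Pool.Agent.Helper97.KB.Num

/-!
The induction.
-/

set_option autoImplicit false
set_option linter.style.haveILetI false
set_option linter.unusedSectionVars false

open scoped BigOperators Classical
open Pool.Agent.Helper884 Pool.Agent.H254R3.IN Pool.Agent.N20

noncomputable section

namespace Pool.Agent.Helper97.KB

variable {p : ℕ} [hp : Fact p.Prime] {O : ValuationSubring ℂ}

lemma exists_z {G : Type} [Group G] [Finite G] {D : Subgroup G} {r : ℕ}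
    (hc : Nat.card D = p ^ (r + 1)) :
    ∃ z ∈ D, (∀ d ∈ D, Commute z d) ∧ orderOf z = p ^ (0 + 1) := by
  have hD : IsPGroup p D := IsPGroup.of_card hc
  haveI : Nontrivial D := by
    rw [← Finite.one_lt_card_iff_nontrivial, hc]
    exact Nat.one_lt_pow (Nat.succ_ne_zero r) hp.out.one_lt
  haveI := hD.center_nontrivial
  have h1 : p ∣ Nat.card (Subgroup.center D) := by
    obtain ⟨n, hn⟩ := IsPGroup.iff_card.mp (hD.to_subgroup (Subgroup.center D))
    rcases n with _ | n
    · have h2 := Finite.one_lt_card (α := Subgroup.center D)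
      rw [hn, pow_zero] at h2
      exact absurd h2 (lt_irrefl 1)
    · rw [hn]
      exact dvd_pow_self p (Nat.succ_ne_zero n)
  obtain ⟨z, hz⟩ := exists_prime_orderOf_dvd_card' p h1
  refine ⟨((z : D) : G), (z : D).2, ?_, ?_⟩
  · intro d hd
    have h3 := Subgroup.mem_center_iff.mp z.2 ⟨d, hd⟩
    exact (congrArg Subtype.val h3).symm
  · rw [zero_add, pow_one, Subgroup.orderOf_coe, Subgroup.orderOf_coe]
    exact hz

section

variable (hpO : (p : ℂ) ∈ O.nonunits) (hB' : S_B) (hSpa : S_Spa) (hDom : S_Dom) (hExt : S_Ext)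

include hpO hB' hSpa hDom hExt

/-- the step -/
theorem ind_step {r k : ℕ} (hr : 1 ≤ r) (hx : ∀ s ≤ r, Kb p O s ⌊FF p r⌋₊) {G : Type} [Group G]
    [Fintype G] {B : Set (G → ℂ)} {D : Subgroup G} (hB : IsBlock O B)
    (hD : IsDefectGroup p O B D) {d : ℕ} (hd : d = k + 1 + r) (hcD : Nat.card D = p ^ d) {z : G}
    (hz : z ∈ D) (hzc : ∀ d ∈ D, Commute z d) (hzo : orderOf z = p ^ (k + 1)) :
    (Nat.card B : ℝ) ≤
      9 * (p : ℝ) ^ (2 * (d : ℝ) - 2 - (k + 1 : ℝ) + 2 ^ (1 - (r : ℝ))) := by
  obtain ⟨h1, h2, -⟩ := rec_step hpO hB' hSpa hDom hExt hx hB hD (by rw [hcD, hd]) hz hzc hzo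
  have hF : (0 : ℝ) ≤ FF p r := by unfold FF; positivity
  have h3 := num_step (p := p) (d := d) (k := k) (r := r) (k0 := k0 O B D) (k1 := k1 O B D)
    (x := ⌊FF p r⌋₊) hp.out.two_le hr hd (Nat.floor_le hF) (by rw [← hcD]; exact h1)
    (by rw [← hcD]; exact h2)
  rw [card_eq_add hB D]
  push_cast
  exact h3

/-- the bound for all blocks -/
theorem ind_main : ∀ r : ℕ, Kb p O (r + 1) ⌊FF p (r + 1 : ℕ)⌋₊ := by
  intro r
  induction r using Nat.strong_induction_on with
  | _ r ih =>
    intro G _ _ B D hB hD hc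
    obtain ⟨z, hz, hzc, hzo⟩ := exists_z hc
    rcases r with _ | r
    · -- defect one
      have hx : ∀ s ≤ 0, Kb p O s 1 := by
        intro s hs
        obtain rfl : s = 0 := by omega
        exact kb_zero hpO
      obtain ⟨-, -, h3⟩ := rec_step hpO hB' hSpa hDom hExt hx hB hD (by rw [hc]) hz hzc hzo
      rw [max_eq_left (by omega), mul_comm (Nat.card D)] at h3
      have h4 := Nat.le_of_mul_le_mul_left h3 (Nat.succ_pos p)
      rw [hc, zero_add, pow_one] at h4
      refine h4.trans ?_
      rw [Nat.le_floor_iff (by unfold FF; positivity)]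
      unfold FF
      rw [zero_add, Nat.cast_one, EE_one, Real.rpow_one]
      have : (0 : ℝ) ≤ p := Nat.cast_nonneg p
      linarith
    · have hx : ∀ s ≤ r + 1, Kb p O s ⌊FF p (r + 1 : ℕ)⌋₊ := by
        intro s hs H _ _ b D' hb hD' hc'
        rcases s with _ | s
        · refine (kb_zero hpO H b D' hb hD' hc').trans ?_
          rw [Nat.le_floor_iff (by unfold FF; positivity)]
          have h5 := one_le_EE (r := r + 1) (by omega)
          have hp1 : (1 : ℝ) ≤ p := by exact_mod_cast hp.out.one_lt.le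
          have h6 : (1 : ℝ) ≤ (p : ℝ) ^ EE (r + 1 : ℕ) :=
            Real.one_le_rpow hp1 (by linarith)
          unfold FF
          push_cast at h6 ⊢
          linarith
        · refine (ih s (by omega) H b D' hb hD' hc').trans ?_
          apply Nat.floor_le_floor
          unfold FF
          have hp1 : (1 : ℝ) ≤ p := by exact_mod_cast hp.out.one_lt.le
          have h6 := Real.rpow_le_rpow_of_exponent_le hp1
            (EE_mono (s := s + 1) (r := r + 1) (by omega) hs)
          linarith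
      have h7 := ind_step hpO hB' hSpa hDom hExt (r := r + 1) (k := 0) (by omega) hx hB hD
        (d := r + 1 + 1) (by omega) hc hz hzc hzo
      rw [Nat.le_floor_iff (by unfold FF; positivity)]
      refine h7.trans (le_of_eq ?_)
      unfold FF EE
      congr 2
      push_cast
      ring_nf

/-- the bound with a central element -/
theorem ind_central {G : Type} [Group G] [Fintype G] {B : Set (G → ℂ)} {D : Subgroup G}
    (hB : IsBlock O B) (hD : IsDefectGroup p O B D) {d e : ℕ} (he : 1 ≤ e) (hed : e < d)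
    (hcD : Nat.card D = p ^ d) {z : G} (hz : z ∈ D) (hzc : ∀ d ∈ D, Commute z d)
    (hzo : orderOf z = p ^ e) :
    (Nat.card B : ℝ) ≤ 9 * (p : ℝ) ^ (2 * (d : ℝ) - 2 - e + 2 ^ (1 - ((d : ℝ) - e))) := by
  obtain ⟨k, rfl⟩ : ∃ k, e = k + 1 := ⟨e - 1, by omega⟩
  obtain ⟨r, rfl⟩ : ∃ r, d = k + 1 + (r + 1) := ⟨d - (k + 1) - 1, by omega⟩
  have hx : ∀ s ≤ r + 1, Kb p O s ⌊FF p (r + 1 : ℕ)⌋₊ := by
    intro s hs H _ _ b D' hb hD' hc'
    rcases s with _ | s
    · refine (kb_zero hpO H b D' hb hD' hc').trans ?_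
      rw [Nat.le_floor_iff (by unfold FF; positivity)]
      have h5 := one_le_EE (r := r + 1) (by omega)
      have hp1 : (1 : ℝ) ≤ p := by exact_mod_cast hp.out.one_lt.le
      have h6 : (1 : ℝ) ≤ (p : ℝ) ^ EE (r + 1 : ℕ) :=
        Real.one_le_rpow hp1 (by linarith)
      unfold FF
      push_cast at h6 ⊢
      linarith
    · refine (ind_main hpO hB' hSpa hDom hExt s H b D' hb hD' hc').trans ?_
      apply Nat.floor_le_floor
      unfold FF
      have hp1 : (1 : ℝ) ≤ p := by exact_mod_cast hp.out.one_lt.le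
      have h6 := Real.rpow_le_rpow_of_exponent_le hp1
        (EE_mono (s := s + 1) (r := r + 1) (by omega) hs)
      linarith
  have h7 := ind_step hpO hB' hSpa hDom hExt (r := r + 1) (k := k) (by omega) hx hB hD
    (d := k + 1 + (r + 1)) rfl hcD hz hzc hzo
  refine h7.trans (le_of_eq ?_)
  congr 2
  push_cast
  ring_nf

end

end Pool.Agent.Helper97.KB
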