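import Mathlib
import Pool.Agent.Helper97.KB.Ind
import Pool.Agent.Helper18.KB.Cyc
import Pool.Agent.Helper18.KB.Spa
import Pool.Agent.Helper15.KB.Quo
import Pool.Agent.Helper93.KB.Dom
import Pool.Agent.Helper7.KB.Ext
import Pool.Agent.Helper90.KB.Cen
import Pool.Agent.Helper90.KB.BB

/-!
Putting the parts together.
-/

set_option autoImplicit false
set_option linter.style.haveILetI false
set_option linter.unusedSectionVars false

open scoped BigOperators Classical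
open Pool.Agent.Helper884 Pool.Agent.H254R3.IN Pool.Agent.N20

noncomputable section

namespace Pool.Agent.Helper97.KB

theorem s_b : S_B := Pool.Agent.Helper90.KB.b Pool.Agent.Helper18.KB.cyc Pool.Agent.Helper90.KB.cen

theorem s_spa : S_Spa := Pool.Agent.Helper18.KB.spa

theorem s_dom : S_Dom := Pool.Agent.Helper93.KB.dom Pool.Agent.Helper15.KB.quo

theorem s_ext : S_Ext := Pool.Agent.Helper7.KB.ext

variable {G : Type} [Group G] [Fintype G] {p : ℕ} [hp : Fact p.Prime] {O : ValuationSubring ℂ}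

lemma hz_of_red (hpO : (p : ℂ) ∈ O.nonunits) {B : Set (G → ℂ)} (hB : IsBlock O B)
    {D : Subgroup G} (hD : IsDefectGroup p O B D) {χ : G → ℂ} (hχ : χ ∈ B)
    (h : red O (uu D χ) ≠ 0) : HeightZero p D χ := by
  haveI := charP_RF hpO
  obtain ⟨n, hn⟩ : ∃ n : ℕ, (n : ℂ) = χ 1 := by
    obtain ⟨V, _, _, _, ρ, -, rfl⟩ := hB.irr χ hχ
    exact ⟨Module.finrank ℂ V, (Representation.char_one ρ).symm⟩
  have hmem := N20.uu_mem hpO hB hD hχ
  have hn0 : n ≠ 0 := by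
    rintro rfl
    exact (hB.irr χ hχ).one_ne (by rw [← hn]; simp)
  have hD0 : Nat.card D ≠ 0 := Nat.card_pos.ne'
  have hG0 : Nat.card G ≠ 0 := Nat.card_pos.ne'
  have hp0 : (p : ℂ) ≠ 0 := by exact_mod_cast hp.out.ne_zero
  refine ⟨n, hn.symm, ?_⟩
  set a := (Nat.card G).factorization p with ha
  set c := n.factorization p + (Nat.card D).factorization p with hc
  set X := ordCompl[p] n * ordCompl[p] (Nat.card D) with hX
  set Y := ordCompl[p] (Nat.card G) with hY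
  have h1 : n * Nat.card D = p ^ c * X := by
    have e1 := Nat.ordProj_mul_ordCompl_eq_self n p
    have e2 := Nat.ordProj_mul_ordCompl_eq_self (Nat.card D) p
    conv_lhs => rw [← e1, ← e2]
    rw [hc, pow_add]
    ring
  have h2 : Nat.card G = p ^ a * Y := (Nat.ordProj_mul_ordCompl_eq_self _ p).symm
  have hx : ¬ p ∣ X := by
    intro hdvd
    rcases hp.out.dvd_mul.mp hdvd with h | h
    · exact Nat.not_dvd_ordCompl hp.out hn0 h
    · exact Nat.not_dvd_ordCompl hp.out hD0 h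
  have hy : ¬ p ∣ Y := Nat.not_dvd_ordCompl hp.out hG0
  have hY0 : (Y : ℂ) ≠ 0 := by
    intro h0
    have : Y = 0 := by exact_mod_cast h0
    rw [this, mul_zero] at h2
    exact hG0 h2
  have h3 : uu D χ * (p ^ a * Y) = p ^ c * X := by
    unfold uu
    have h4 : χ 1 * Nat.card D = (p : ℂ) ^ c * X := by
      rw [← hn]
      exact_mod_cast h1
    have h5 : (Nat.card G : ℂ) = (p : ℂ) ^ a * Y := by exact_mod_cast h2
    rw [h4, h5]
    field_simp
  rcases lt_trichotomy c a with hlt | heq | hgt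
  · -- then `X` is divisible by `p` in `O`
    exfalso
    obtain ⟨j, hj⟩ := Nat.exists_eq_add_of_lt hlt
    have h4 : (X : ℂ) = p * (p ^ j * (uu D χ * Y)) := by
      have h5 : (p : ℂ) ^ c * (p * (p ^ j * (uu D χ * Y))) = p ^ c * X := by
        rw [← h3, hj]
        ring
      exact (mul_left_cancel₀ (pow_ne_zero _ hp0) h5).symm
    have h6 := congrArg (red O) h4
    rw [red_mul (natCast_mem' p) (O.mul_mem _ _ (pow_mem (natCast_mem' p) j)
      (O.mul_mem _ _ hmem (natCast_mem' Y))), red_eq_zero hpO, zero_mul] at h6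
    have h7 : red O (X : ℂ) = (X : RF O) := by
      have := red_intCast (O := O) (X : ℤ)
      simpa using this
    rw [h7] at h6
    exact hx ((CharP.cast_eq_zero_iff (RF O) p X).mp h6)
  · exact heq
  · exfalso
    obtain ⟨j, hj⟩ := Nat.exists_eq_add_of_lt hgt
    have h4 : uu D χ * Y = p * (p ^ j * X) := by
      have h5 : (p : ℂ) ^ a * (uu D χ * Y) = p ^ a * (p * (p ^ j * X)) := by
        have : (p : ℂ) ^ a * (uu D χ * Y) = uu D χ * (p ^ a * Y) := by ring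
        rw [this, h3, hj]
        ring
      exact mul_left_cancel₀ (pow_ne_zero _ hp0) h5
    have h6 := congrArg (red O) h4
    rw [red_mul hmem (natCast_mem' Y), red_mul (natCast_mem' p) (O.mul_mem _ _
      (pow_mem (natCast_mem' p) j) (natCast_mem' X)), red_eq_zero hpO, zero_mul] at h6
    have h7 : red O (Y : ℂ) = (Y : RF O) := by
      have := red_intCast (O := O) (Y : ℤ)
      simpa using this
    rw [h7] at h6
    rcases mul_eq_zero.mp h6 with h8 | h8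
    · exact h h8
    · exact hy ((CharP.cast_eq_zero_iff (RF O) p Y).mp h8)

lemma hz_iff (hpO : (p : ℂ) ∈ O.nonunits) {B : Set (G → ℂ)} (hB : IsBlock O B)
    {D : Subgroup G} (hD : IsDefectGroup p O B D) {χ : G → ℂ} (hχ : χ ∈ B) :
    HeightZero p D χ ↔ red O (uu D χ) ≠ 0 :=
  ⟨uu_unit hpO (hB.irr χ hχ), hz_of_red hpO hB hD hχ⟩

lemma k0_eq (hpO : (p : ℂ) ∈ O.nonunits) {B : Set (G → ℂ)} (hB : IsBlock O B)
    {D : Subgroup G} (hD : IsDefectGroup p O B D) :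
    Nat.card {χ : G → ℂ // χ ∈ B ∧ HeightZero p D χ} = k0 O B D := by
  unfold k0
  refine Nat.card_congr (Equiv.subtypeEquivRight fun χ => ?_)
  constructor
  · rintro ⟨h1, h2⟩
    exact ⟨h1, (hz_iff hpO hB hD h1).mp h2⟩
  · rintro ⟨h1, h2⟩
    exact ⟨h1, (hz_iff hpO hB hD h1).mpr h2⟩

/-- (1) -/
theorem part_one (hpO : (p : ℂ) ∈ O.nonunits) {B : Set (G → ℂ)} (hB : IsBlock O B)
    {D : Subgroup G} (hD : IsDefectGroup p O B D) {d : ℕ} (hd : Nat.card D = p ^ d)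
    (h : 1 ≤ d) :
    (Nat.card B : ℝ) ≤ 9 * (p : ℝ) ^ (2 * (d : ℝ) - 3 + 2 ^ (2 - (d : ℝ))) := by
  obtain ⟨r, rfl⟩ : ∃ r, d = r + 1 := ⟨d - 1, by omega⟩
  have h1 := ind_main hpO s_b s_spa s_dom s_ext r G B D hB hD hd
  rw [Nat.le_floor_iff (by unfold FF; positivity)] at h1
  exact h1

/-- (2) -/
theorem part_two (hpO : (p : ℂ) ∈ O.nonunits) {B : Set (G → ℂ)} (hB : IsBlock O B)
    {D : Subgroup G} (hD : IsDefectGroup p O B D) {z : G} (hz : z ∈ D)
    (hzc : ∀ x ∈ D, z * x = x * z) {e : ℕ} (hze : orderOf z = p ^ e) (he : 1 ≤ e) :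
    p ^ e * (k0 O B D + p ^ 2 * k1 O B D) ≤ Nat.card D ^ 2 := by
  obtain ⟨k, rfl⟩ : ∃ k, e = k + 1 := ⟨e - 1, by omega⟩
  obtain ⟨b, D', hb, hD', hcard, hbB⟩ := s_ext G p O hpO B hB D hD z hz hzc
  exact s_b G p O hpO B hB D hD z k hze b hb D' hD' hcard hbB

/-- all blocks of small defect -/
lemma kb_all (hpO : (p : ℂ) ∈ O.nonunits) (r : ℕ) :
    ∀ s ≤ r + 1, Kb p O s ⌊FF p (r + 1 : ℕ)⌋₊ := by
  intro s hs H _ _ b D' hb hD' hc'
  rcases s with _ | s
  · refine (kb_zero hpO H b D' hb hD' hc').trans ?_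
    rw [Nat.le_floor_iff (by unfold FF; positivity)]
    have h5 := one_le_EE (r := r + 1) (by omega)
    have hp1 : (1 : ℝ) ≤ p := by exact_mod_cast hp.out.one_lt.le
    have h6 : (1 : ℝ) ≤ (p : ℝ) ^ EE (r + 1 : ℕ) :=
      Real.one_le_rpow hp1 (by linarith)
    unfold FF
    push_cast at h6 ⊢
    linarith
  · refine (ind_main hpO s_b s_spa s_dom s_ext s H b D' hb hD' hc').trans ?_
    apply Nat.floor_le_floor
    unfold FF
    have hp1 : (1 : ℝ) ≤ p := by exact_mod_cast hp.out.one_lt.le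
    have h6 := Real.rpow_le_rpow_of_exponent_le hp1
      (EE_mono (s := s + 1) (r := r + 1) (by omega) hs)
    linarith

/-- the number of irreducible Brauer characters of a block of the centraliser -/
lemma lB_cent (hpO : (p : ℂ) ∈ O.nonunits) {u : G} {f : ℕ} (hu : orderOf u = p ^ f)
    {b : Set (CC u → ℂ)} (hb : IsBlock O b) {Q : Subgroup (CC u)} (hQ : IsDefectGroup p O b Q)
    {r x : ℕ} (hc : Nat.card Q ≤ p ^ (f + r)) (hx : ∀ s ≤ r, Kb p O s x) : lB p b ≤ x := by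
  have hcen : Subgroup.zpowers (uc u) ≤ Subgroup.center (CC u) := by
    rw [Subgroup.zpowers_le, Subgroup.mem_center_iff]
    intro g
    exact (uc_comm u g).symm
  haveI : (Subgroup.zpowers (uc u)).Normal :=
    ⟨fun n hn g => by
      have h1 := Subgroup.mem_center_iff.mp (hcen hn) g
      rw [h1, mul_inv_cancel_right]
      exact hn⟩
  have hord : orderOf (uc u) = p ^ f := by
    rw [← hu]
    exact Subgroup.orderOf_mk u _
  have hcz : Nat.card (Subgroup.zpowers (uc u)) = p ^ f := by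
    rw [Nat.card_zpowers, hord]
  have hZp : IsPGroup p (Subgroup.zpowers (uc u)) := IsPGroup.of_card hcz
  refine lB_bound hpO s_spa s_dom hx _ hcen hZp hb hQ ?_
  rw [hcz, ← pow_add]
  exact hc

/-- (3) -/
theorem part_three (hpO : (p : ℂ) ∈ O.nonunits) {B : Set (G → ℂ)} (hB : IsBlock O B)
    {D : Subgroup G} (hD : IsDefectGroup p O B D) {u : G} {f : ℕ} (hu : orderOf u = p ^ f)
    (hf : 1 ≤ f) {b : Set (CC u → ℂ)} (hb : IsBlock O b) {Q : Subgroup (CC u)}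
    (hQ : IsDefectGroup p O b Q) (hbB : Induces O B (CC u) b) :
    p * k0 O B D ^ 2 ≤ 7 * Nat.card Q ^ 2 * max p (lB p b) ∧
    ∀ c : ℕ, Nat.card Q = p ^ c → f < c → (k0 O B D : ℝ) ≤
      8 * (p : ℝ) ^ (2 * (c : ℝ) - 2 - f + 2 ^ (1 - ((c : ℝ) - f))) := by
  obtain ⟨k, rfl⟩ : ∃ k, f = k + 1 := ⟨f - 1, by omega⟩
  have h1 := a G p O hpO B hB D hD u k hu b hb Q hQ hbB
  refine ⟨h1, ?_⟩
  intro c hc hlt
  obtain ⟨r, rfl⟩ : ∃ r, c = k + 1 + (r + 1) := ⟨c - (k + 1) - 1, by omega⟩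
  have hl := lB_cent hpO hu hb hQ (r := r + 1) hc.le (kb_all hpO r)
  have hp0 : (0 : ℝ) < p := by exact_mod_cast hp.out.pos
  have hp1 : (1 : ℝ) ≤ p := by exact_mod_cast hp.out.one_lt.le
  have hF : (0 : ℝ) ≤ FF p (r + 1 : ℕ) := by unfold FF; positivity
  have hx : (lB p b : ℝ) ≤ 9 * (p : ℝ) ^ EE (r + 1 : ℕ) :=
    le_trans (by exact_mod_cast hl) (Nat.floor_le hF)
  set T : ℝ := 2 * ((k + 1 + (r + 1) : ℕ) : ℝ) - 2 - (k + 1 : ℕ) +
    2 ^ (1 - (((k + 1 + (r + 1) : ℕ) : ℝ) - (k + 1 : ℕ))) with hT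
  have h2T : 1 + 2 * T = 2 * ((k + 1 + (r + 1) : ℕ) : ℝ) + EE (r + 1 : ℕ) := by
    have e1 : (2 : ℝ) ^ (2 - ((r + 1 : ℕ) : ℝ)) =
        2 * 2 ^ (1 - (((k + 1 + (r + 1) : ℕ) : ℝ) - (k + 1 : ℕ))) := by
      rw [show (2 - ((r + 1 : ℕ) : ℝ)) = 1 + (1 - (((k + 1 + (r + 1) : ℕ) : ℝ) - (k + 1 : ℕ))) by
        push_cast; ring, Real.rpow_add (by norm_num), Real.rpow_one]
    rw [hT, EE, e1]
    push_cast
    ring
  have hmax : ((max p (lB p b) : ℕ) : ℝ) ≤ 9 * (p : ℝ) ^ EE (r + 1 : ℕ) := by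
    rw [Nat.cast_max]
    refine max_le ?_ hx
    have e1 : (p : ℝ) ^ (1 : ℝ) ≤ (p : ℝ) ^ EE (r + 1 : ℕ) :=
      Real.rpow_le_rpow_of_exponent_le hp1 (one_le_EE (by omega))
    rw [Real.rpow_one] at e1
    have e2 : (0 : ℝ) ≤ (p : ℝ) ^ EE (r + 1 : ℕ) := Real.rpow_nonneg hp0.le _
    linarith
  rw [hc] at h1
  have h1' : (p : ℝ) * (k0 O B D : ℝ) ^ 2 ≤ 7 * ((p : ℝ) ^ (k + 1 + (r + 1))) ^ 2 *
      (max p (lB p b) : ℕ) := by
    exact_mod_cast h1
  have h3 : (p : ℝ) * (k0 O B D : ℝ) ^ 2 ≤ p * (8 * (p : ℝ) ^ T) ^ 2 := by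
    calc (p : ℝ) * (k0 O B D : ℝ) ^ 2 ≤ 7 * ((p : ℝ) ^ (k + 1 + (r + 1))) ^ 2 *
          (max p (lB p b) : ℕ) := h1'
      _ ≤ 7 * ((p : ℝ) ^ (k + 1 + (r + 1))) ^ 2 * (9 * (p : ℝ) ^ EE (r + 1 : ℕ)) := by gcongr
      _ = 63 * ((p : ℝ) ^ (2 * ((k + 1 + (r + 1) : ℕ) : ℝ) + EE (r + 1 : ℕ))) := by
          rw [Real.rpow_add hp0, show (2 * ((k + 1 + (r + 1) : ℕ) : ℝ)) =
            ((2 * (k + 1 + (r + 1)) : ℕ) : ℝ) by push_cast; ring, Real.rpow_natCast]
          ring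
      _ = 63 * ((p : ℝ) ^ (1 + 2 * T)) := by rw [h2T]
      _ = 63 * (p * ((p : ℝ) ^ T) ^ 2) := by
          rw [Real.rpow_add hp0, Real.rpow_one, mul_comm (2 : ℝ) T, Real.rpow_mul hp0.le]
          norm_num
      _ ≤ 64 * (p * ((p : ℝ) ^ T) ^ 2) := by
          have : 0 ≤ (p : ℝ) * ((p : ℝ) ^ T) ^ 2 := by positivity
          linarith
      _ = p * (8 * (p : ℝ) ^ T) ^ 2 := by ring
  have h4 := le_of_mul_le_mul_left h3 hp0
  exact (sq_le_sq₀ (Nat.cast_nonneg _) (by positivity)).mp h4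

end Pool.Agent.Helper97.KB
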